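import Pool.Agent.H43.TC.Targets

/-! INQ. A balanced colouring satisfies a linear inequality valid for all colourings. -/

set_option autoImplicit false

namespace Pool.Agent.H60.TC

open Pool.Agent.H43.TC

private lemma dens_add {k n : ℕ} [NeZero n] (c : Tor k n → Bool) :
    dens c true + dens c false = 1 := by
  have h1 : size c true + size c false = n ^ k := by
    have h2 := Finset.card_filter_add_card_filter_not (s := (Finset.univ : Finset (Tor k n)))
      (fun x => c x = true)
    rw [Finset.card_univ, Fintype.card_fun, ZMod.card, Fintype.card_fin] at h2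
    rw [size, size, ← h2]
    congr 2
    ext x
    simp
  have h3 : ((n : ℝ) ^ k) ≠ 0 := pow_ne_zero _ (by exact_mod_cast NeZero.ne n)
  rw [dens, dens, ← add_div, div_eq_one_iff_eq h3]
  exact_mod_cast h1

/-- INQ -/
theorem inq (hREG : T_REG) : T_INQ := by
  intro k t q p μ hk hq hp h x y hxy
  have h1 := (hREG k t x y hk).1 hxy
  refine le_of_forall_pos_le_add fun ε hε => ?_
  have hqp : 0 < 2 * (q + p) + 1 := by positivity
  obtain ⟨n, c, -, h2, h3, h4⟩ := h1 (ε / (2 * (q + p) + 1)) (by positivity) 0
  have h5 := h n c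
  have h6 := dens_add c
  have h7 : dens c false = 1 / 2 := by linarith
  rw [h7] at h5
  set δ : ℝ := ε / (2 * (q + p) + 1) with hδ
  have hδ0 : 0 < δ := by positivity
  have h8 : δ * (2 * (q + p) + 1) = ε := div_mul_cancel₀ _ hqp.ne'
  have h9 := (abs_lt.1 h3).1
  have h10 := (abs_lt.1 h4).2
  have h11 : q * mono c false t ≤ q * (y / 2 + δ) := mul_le_mul_of_nonneg_left (by linarith) hq
  have h12 : p * (1 - mono c true t) ≤ p * (1 - x / 2 + δ) :=
    mul_le_mul_of_nonneg_left (by linarith) hp
  nlinarith

end Pool.Agent.H60.TC
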