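import Pool.Agent.H43.TC.Targets

/-! SUM. Three step walks by their middle edge. -/

set_option autoImplicit false

namespace Pool.Agent.H60.TC

open Pool.Agent.H43.TC

private lemma w1 {n : ℕ} (c : Tor 2 n → Bool) (b : Bool) (x : Tor 2 n) :
    walks e c b 1 x = if c x = b then dg c b x else 0 := by
  rw [walks, dg]
  rfl

private lemma w2 {n : ℕ} (c : Tor 2 n → Bool) (b : Bool) (x : Tor 2 n) :
    dg c b x * walks e c b 2 x = ∑ i : Fin 2, (ed c b i x + ed c b i (x - e i)) := by
  rw [walks]
  by_cases h : c x = b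
  · rw [if_pos h, Finset.mul_sum]
    refine Finset.sum_congr rfl fun i _ => ?_
    rw [w1, w1, ed, ed, sub_add_cancel]
    by_cases h1 : c (x + e i) = b <;> by_cases h2 : c (x - e i) = b <;> simp [h, h1, h2] <;> ring
  · rw [if_neg h, mul_zero]
    symm
    refine Finset.sum_eq_zero fun i _ => ?_
    rw [ed, ed, sub_add_cancel, if_neg (fun e => h e.1), if_neg (fun e => h e.2), add_zero]

private lemma shift {n : ℕ} [NeZero n] (f : Tor 2 n → ℕ) (v : Tor 2 n) :
    ∑ x, f (x + v) = ∑ x, f x :=
  Equiv.sum_comp (Equiv.addRight v) f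

/-- SUM -/
theorem sum3 : T_SUM := by
  intro n _ c b
  have h1 : total c b 3 = ∑ x, dg c b x * walks e c b 2 x := by
    have h2 : ∀ x : Tor 2 n, walks e c b 3 x = ∑ i : Fin 2,
        ((if c x = b then 1 else 0) * walks e c b 2 (x + e i) +
          (if c x = b then 1 else 0) * walks e c b 2 (x - e i)) := by
      intro x
      rw [walks]
      by_cases h : c x = b <;> simp [h]
    have h3 : ∀ i : Fin 2, ∑ x : Tor 2 n,
        (if c x = b then 1 else 0) * walks e c b 2 (x + e i) =
        ∑ x : Tor 2 n, (if c (x - e i) = b then 1 else 0) * walks e c b 2 x := by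
      intro i
      rw [← shift (fun x : Tor 2 n => (if c (x - e i) = b then 1 else 0) * walks e c b 2 x) (e i)]
      simp
    have h4 : ∀ i : Fin 2, ∑ x : Tor 2 n,
        (if c x = b then 1 else 0) * walks e c b 2 (x - e i) =
        ∑ x : Tor 2 n, (if c (x + e i) = b then 1 else 0) * walks e c b 2 x := by
      intro i
      rw [← shift (fun x : Tor 2 n => (if c x = b then 1 else 0) * walks e c b 2 (x - e i)) (e i)]
      simp
    rw [total, Finset.sum_congr rfl fun x _ => h2 x, Finset.sum_comm]
    simp only [Finset.sum_add_distrib, h3, h4, dg, Finset.sum_mul, add_mul]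
    rw [Finset.sum_comm, Finset.sum_comm (s := (Finset.univ : Finset (Fin 2)))
      (f := fun i x => (if c (x + e i) = b then 1 else 0) * walks e c b 2 x)]
    ring
  rw [h1, Finset.sum_congr rfl fun x _ => w2 c b x, Finset.sum_comm]
  have h5 : ∀ i : Fin 2, ∑ x : Tor 2 n, (ed c b i x + ed c b i (x - e i)) =
      2 * ∑ x, ed c b i x := by
    intro i
    rw [Finset.sum_add_distrib, two_mul]
    congr 1
    rw [← shift (fun x : Tor 2 n => ed c b i (x - e i)) (e i)]
    simp
  rw [Finset.sum_congr rfl fun i _ => h5 i, Fin.sum_univ_two, Finset.sum_add_distrib]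
  ring

end Pool.Agent.H60.TC
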